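import Pool.Agent.W912.SE.Defs

set_option autoImplicit false

/-! SE-MAJ: combinations of decision trees. -/

namespace Pool.Agent.W899.SE

open Pool.Agent.W912.SE Pool.Agent.H676 Pool.Agent.H620R2.Gauge

theorem two {I : Type} [Fintype I] [DecidableEq I] {U : ℕ} : ∀ {T : ℕ}
    (f : (I → Bool) → Bool) (g : Bool → (I → Bool) → Bool), DTr T f → (∀ c, DTr U (g c)) →
    DTr (T + U) (fun a => g (f a) a) := by
  intro T
  induction T with
  | zero =>
    rintro f g ⟨c, hc⟩ hg
    rw [Nat.zero_add]
    exact (congrArg (DTr U) (funext fun a => by rw [hc a])).mp (hg c)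
  | succ T ih =>
    intro f g hf hg
    rcases hf with ⟨c, hc⟩ | ⟨i, hi⟩
    · exact DTr.mono ((congrArg (DTr U) (funext fun a => by rw [hc a])).mp (hg c)) (by omega)
    · rw [show T + 1 + U = (T + U) + 1 by ring]
      exact Or.inr ⟨i, fun b => ih (fun a => f (Function.update a i b))
        (fun c a => g c (Function.update a i b)) (hi b) (fun c => DTr_update (hg c) i b)⟩

theorem maj : S_MAJ := by
  intro I _ _ q T f H hf
  induction q with
  | zero =>
    refine DTr.const ⟨H (fun j => j.elim0), fun a => ?_⟩
    congr 1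
    funext j
    exact j.elim0
  | succ q ih =>
    have h1 := two (U := q * T) (f 0) (fun c a => H (Fin.cons c (fun j => f j.succ a))) (hf 0)
      (fun c => ih (fun j => f j.succ) (fun v => H (Fin.cons c v)) (fun j => hf j.succ))
    rw [show (q + 1) * T = T + q * T by ring]
    refine (congrArg (DTr (T + q * T)) (funext fun a => ?_)).mp h1
    congr 1
    funext j
    refine Fin.cases ?_ (fun i => ?_) j
    · rfl
    · rfl

end Pool.Agent.W899.SE
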